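import Mathlib

set_option autoImplicit false

namespace Pool.Agent.Results.MP_118fda_co.Proof

/-- The generalized Mycielski graph `M_r(G)`: `some (u, i)` is the vertex `(u, i+1)` and `none`
is `z`. -/
def myc {V : Type} (G : SimpleGraph V) (r : ℕ) : SimpleGraph (Option (V × Fin r)) where
  Adj x y :=
    match x, y with
    | some (u, i), some (v, j) =>
        G.Adj u v ∧ ((i.val = 0 ∧ j.val = 0) ∨ i.val + 1 = j.val ∨ j.val + 1 = i.val)
    | some (_, i), none => i.val + 1 = r
    | none, some (_, j) => j.val + 1 = r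
    | none, none => False
  symm := ⟨by
    rintro (_ | ⟨u, i⟩) (_ | ⟨v, j⟩) h
    · exact h
    · exact h
    · exact h
    · exact ⟨h.1.symm, by have := h.2; omega⟩⟩
  loopless := ⟨by
    rintro (_ | ⟨u, i⟩) h
    · exact h
    · exact G.irrefl h.1⟩

/-- `D` is an orientation of `G`: every edge gets exactly one direction. -/
def IsOrientation {V : Type} (G : SimpleGraph V) (D : V → V → Prop) : Prop :=
  (∀ u v, G.Adj u v ↔ (D u v ∨ D v u)) ∧ ∀ u v, ¬ (D u v ∧ D v u)

/-- `c` lists, in cyclic order, the vertices of a cycle of length `L` in `G`. -/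
def IsCyc {V : Type} (G : SimpleGraph V) (L : ℕ) (c : ZMod L → V) : Prop :=
  3 ≤ L ∧ Function.Injective c ∧ ∀ i, G.Adj (c i) (c (i + 1))

/-- A shortest odd cycle. -/
def IsShortestOdd {V : Type} (G : SimpleGraph V) (L : ℕ) (c : ZMod L → V) : Prop :=
  IsCyc G L c ∧ Odd L ∧ ∀ (L' : ℕ) (c' : ZMod L' → V), IsCyc G L' c' → Odd L' → L ≤ L'

/-- The `i`-th vertex of the cycle is a source or a sink in the cycle. -/
def SourceOrSink {V : Type} (D : V → V → Prop) {L : ℕ} (c : ZMod L → V) (i : ZMod L) : Prop :=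
  (D (c i) (c (i + 1)) ∧ D (c i) (c (i - 1))) ∨ (D (c (i + 1)) (c i) ∧ D (c (i - 1)) (c i))

/-- All vertices of the cycle, with at most one exception, are sources or sinks. -/
def Alternating {V : Type} (D : V → V → Prop) {L : ℕ} (c : ZMod L → V) : Prop :=
  ∀ i j, ¬ SourceOrSink D c i → ¬ SourceOrSink D c j → i = j

lemma odd_mono {L : ℕ} (hL : Odd L) (f : ZMod L → Bool) : ∃ i, f i = f (i + 1) := by
  by_contra h
  push Not at h
  have key : ∀ t : ℕ, f (t : ZMod L) = (if t % 2 = 0 then f 0 else !f 0) := by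
    intro t
    induction t with
    | zero => simp
    | succ t ih =>
      have h1 := h (t : ZMod L)
      push_cast
      rw [ih] at h1
      rcases Nat.mod_two_eq_zero_or_one t with h2 | h2
      · have h3 : (t + 1) % 2 = 1 := by omega
        simp only [h2, h3] at h1 ⊢
        revert h1
        cases f 0 <;> cases f ((t : ZMod L) + 1) <;> simp
      · have h3 : (t + 1) % 2 = 0 := by omega
        simp only [h2, h3] at h1 ⊢
        revert h1
        cases f 0 <;> cases f ((t : ZMod L) + 1) <;> simp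
  have h1 := key L
  rw [ZMod.natCast_self, Nat.odd_iff.mp hL] at h1
  revert h1
  cases f 0 <;> simp

/-- The general principle. -/
lemma general {V : Type} (G : SimpleGraph V) (n : ℕ) (hn : 0 < n) (col : Fin n → V → Bool)
    (e : V → ℕ) (he : Function.Injective e)
    (hcol : ∀ u v, G.Adj u v → ∀ a b, col a u = col a v → col b u = col b v → a = b)
    (c0 : ZMod n → V) (hc0 : IsCyc G n c0) (hodd : Odd n) :
    ∃ D, IsOrientation G D ∧ ∀ L c, IsShortestOdd G L c → Alternating D c := by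
  classical
  set k : V → Bool := col ⟨0, hn⟩ with hk
  refine ⟨fun u v => G.Adj u v ∧ (if k u = k v then e u < e v else k u = false), ⟨?_, ?_⟩, ?_⟩
  · intro u v
    constructor
    · intro h
      have hne : e u ≠ e v := fun h' => h.ne (he h')
      by_cases h1 : k u = k v
      · rcases Nat.lt_or_gt_of_ne hne with h2 | h2
        · left; exact ⟨h, by simp [h1, h2]⟩
        · right; exact ⟨h.symm, by simp only [h1, if_true]; exact h2⟩
      · by_cases h3 : k u = false
        · left; exact ⟨h, by rw [if_neg h1]; exact h3⟩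
        · right
          refine ⟨h.symm, ?_⟩
          rw [if_neg (Ne.symm h1)]
          revert h1 h3
          cases k u <;> cases k v <;> simp
    · rintro (h | h)
      · exact h.1
      · exact h.1.symm
  · rintro u v ⟨⟨-, h1⟩, ⟨-, h2⟩⟩
    by_cases h : k u = k v
    · rw [if_pos h] at h1; rw [if_pos h.symm] at h2; omega
    · rw [if_neg h] at h1; rw [if_neg (Ne.symm h)] at h2; exact h (h1.trans h2.symm)
  · rintro L c ⟨⟨hL3, hinj, hadj⟩, hL, hmin⟩
    have hle : L ≤ n := hmin n c0 hc0 hodd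
    have : NeZero L := ⟨by omega⟩
    choose g hg using fun a : Fin n => odd_mono hL (fun i => col a (c i))
    have ginj : Function.Injective g := by
      intro a b hab
      exact hcol _ _ (hadj (g a)) a b (hg a) (by rw [hab]; exact hg b)
    have gsurj : Function.Surjective g := by
      have h1 := Fintype.card_le_of_injective g ginj
      exact ((Fintype.bijective_iff_injective_and_card g).mpr
        ⟨ginj, by simp only [Fintype.card_fin, ZMod.card] at h1 ⊢; omega⟩).2
    set i0 := g ⟨0, hn⟩ with hi0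
    have huniq : ∀ i, k (c i) = k (c (i + 1)) → i = i0 := by
      intro i hi
      obtain ⟨a, rfl⟩ := gsurj i
      rw [hcol _ _ (hadj (g a)) a ⟨0, hn⟩ (hg a) hi]
    have h1ne : (1 : ZMod L) ≠ 0 := by
      intro h
      have := (ZMod.natCast_eq_zero_iff 1 L).mp (by simpa using h)
      have := Nat.le_of_dvd (by norm_num) this
      omega
    have hprev : ∀ i, G.Adj (c i) (c (i - 1)) := by
      intro i
      have := hadj (i - 1)
      rw [sub_add_cancel] at this
      exact this.symm
    -- direction of a bichromatic edge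
    have dir : ∀ u v, G.Adj u v → k u ≠ k v → k u = false →
        (G.Adj u v ∧ (if k u = k v then e u < e v else k u = false)) := by
      intro u v h h1 h2
      exact ⟨h, by rw [if_neg h1]; exact h2⟩
    have flip : ∀ x y : Bool, x ≠ y → ¬ x = false → y = false := by decide
    have good : ∀ i, i ≠ i0 → i ≠ i0 + 1 → SourceOrSink
        (fun u v => G.Adj u v ∧ (if k u = k v then e u < e v else k u = false)) c i := by
      intro i h1 h2
      have a1 : k (c i) ≠ k (c (i + 1)) := fun h => h1 (huniq i h)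
      have a2 : k (c i) ≠ k (c (i - 1)) := by
        intro h
        have := huniq (i - 1) (by rw [sub_add_cancel]; exact h.symm)
        exact h2 (by rw [← this, sub_add_cancel])
      by_cases hb : k (c i) = false
      · left; exact ⟨dir _ _ (hadj i) a1 hb, dir _ _ (hprev i) a2 hb⟩
      · right
        exact ⟨dir _ _ (hadj i).symm a1.symm (flip _ _ a1 hb),
          dir _ _ (hprev i).symm a2.symm (flip _ _ a2 hb)⟩
    have hm : k (c i0) = k (c (i0 + 1)) := hg ⟨0, hn⟩
    have a1 : k (c i0) ≠ k (c (i0 - 1)) := by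
      intro h
      have := huniq (i0 - 1) (by rw [sub_add_cancel]; exact h.symm)
      exact h1ne (by linear_combination -this)
    have a2 : k (c (i0 + 1)) ≠ k (c (i0 + 1 + 1)) := by
      intro h
      have := huniq (i0 + 1) h
      exact h1ne (by linear_combination this)
    have hne : e (c i0) ≠ e (c (i0 + 1)) := fun h' => (hadj i0).ne (he h')
    have one : SourceOrSink
        (fun u v => G.Adj u v ∧ (if k u = k v then e u < e v else k u = false)) c i0 ∨
        SourceOrSink
        (fun u v => G.Adj u v ∧ (if k u = k v then e u < e v else k u = false)) c (i0 + 1) := by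
      unfold SourceOrSink
      rw [add_sub_cancel_right]
      rcases Nat.lt_or_gt_of_ne hne with h2 | h2
      · have d0 : G.Adj (c i0) (c (i0 + 1)) ∧
            (if k (c i0) = k (c (i0 + 1)) then e (c i0) < e (c (i0 + 1)) else k (c i0) = false) :=
          ⟨hadj i0, by rw [if_pos hm]; exact h2⟩
        by_cases hb : k (c i0) = false
        · left; left; exact ⟨d0, dir _ _ (hprev i0) a1 hb⟩
        · right; right
          exact ⟨dir _ _ (hadj (i0 + 1)).symm a2.symm (flip _ _ a2 (by rw [← hm]; exact hb)), d0⟩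
      · have d0 : G.Adj (c (i0 + 1)) (c i0) ∧
            (if k (c (i0 + 1)) = k (c i0) then e (c (i0 + 1)) < e (c i0)
              else k (c (i0 + 1)) = false) :=
          ⟨(hadj i0).symm, by rw [if_pos hm.symm]; exact h2⟩
        by_cases hb : k (c i0) = false
        · right; left
          exact ⟨dir _ _ (hadj (i0 + 1)) a2 (by rw [← hm]; exact hb), d0⟩
        · left; right
          exact ⟨d0, dir _ _ (hprev i0).symm a1.symm (flip _ _ a1 hb)⟩
    intro i j hi hj
    have hi' : i = i0 ∨ i = i0 + 1 := by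
      by_contra h; push Not at h; exact hi (good i h.1 h.2)
    have hj' : j = i0 ∨ j = i0 + 1 := by
      by_contra h; push Not at h; exact hj (good j h.1 h.2)
    rcases hi' with rfl | rfl <;> rcases hj' with h | h
    · exact h.symm
    · rw [h] at hj; exact absurd one (by tauto)
    · rw [h] at hj; exact absurd one (by tauto)
    · exact h.symm

/-- `d` is an end of a walk with `s - 1` steps from `0` in the cycle of length `2m+1`. -/
def P (m s d : ℕ) : Prop :=
  (d + 1 ≤ s ∧ (d + 1 + s) % 2 = 0) ∨ (2 * m + 2 ≤ s + d ∧ (d + s) % 2 = 0)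

instance (m s d : ℕ) : Decidable (P m s d) := by unfold P; infer_instance

def dist (m u a : ℕ) : ℕ := if u ≤ a then a - u else a + 2 * m + 1 - u

def colr (m u s a : ℕ) : Bool := xor (decide (s % 2 = 0)) (decide (P m s (dist m u a)))

def Nb (m u v : ℕ) : Prop :=
  u ≤ 2 * m ∧ v ≤ 2 * m ∧ (u + 1 = v ∨ v + 1 = u ∨ (u = 0 ∧ v = 2 * m) ∨ (v = 0 ∧ u = 2 * m))

def Sc (m d e : ℕ) : Prop := d ≤ 2 * m ∧ e ≤ 2 * m ∧ (e = d + 1 ∨ (d = 2 * m ∧ e = 0))

lemma dist_inj {m u a b : ℕ} (hu : u ≤ 2 * m) (ha : a ≤ 2 * m) (hb : b ≤ 2 * m)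
    (h : dist m u a = dist m u b) : a = b := by
  unfold dist at h
  split_ifs at h <;> omega

lemma dist_le {m u a : ℕ} (ha : a ≤ 2 * m) : dist m u a ≤ 2 * m := by
  unfold dist
  split_ifs <;> omega

lemma nb_sc {m u v : ℕ} (h : Nb m u v) :
    (∀ a ≤ 2 * m, Sc m (dist m u a) (dist m v a)) ∨
      (∀ a ≤ 2 * m, Sc m (dist m v a) (dist m u a)) := by
  obtain ⟨hu, hv, h | h | h | h⟩ := h
  · right; intro a ha; unfold Sc dist; split_ifs <;> omega
  · left; intro a ha; unfold Sc dist; split_ifs <;> omega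
  · left; intro a ha; unfold Sc dist; split_ifs <;> omega
  · right; intro a ha; unfold Sc dist; split_ifs <;> omega

lemma same0 {m d e : ℕ} (h : Sc m d e) (h1 : P m m d ↔ P m m e) : d = m := by
  obtain ⟨hd, he, h | h⟩ := h
  · unfold P at h1; omega
  · unfold P at h1; omega

lemma step1 {m s d e : ℕ} (hs : s + 1 ≤ m) (h : Sc m d e) (h1 : ¬ (P m (s + 1) d ↔ P m s e)) :
    d = s := by
  obtain ⟨hd, he, h | h⟩ := h
  · unfold P at h1; omega
  · unfold P at h1; omega

lemma step2 {m s d e : ℕ} (hs : s + 1 ≤ m) (h : Sc m e d) (h1 : ¬ (P m (s + 1) d ↔ P m s e)) :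
    e + s = 2 * m := by
  obtain ⟨hd, he, h | h⟩ := h
  · unfold P at h1; omega
  · unfold P at h1; omega

lemma step0 {m d e : ℕ} (hm : 1 ≤ m) (hd : d ≤ 2 * m) (he : e ≤ 2 * m)
    (h1 : ¬ (P m (0 + 1) d ↔ P m 0 e)) : d = 0 := by
  unfold P at h1; omega

lemma same (m u v a b : ℕ) (h : Nb m u v) (ha : a ≤ 2 * m) (hb : b ≤ 2 * m)
    (h1 : colr m u m a = colr m v m a) (h2 : colr m u m b = colr m v m b) : a = b := by
  have h1' : P m m (dist m u a) ↔ P m m (dist m v a) := by simpa [colr] using h1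
  have h2' : P m m (dist m u b) ↔ P m m (dist m v b) := by simpa [colr] using h2
  rcases nb_sc h with g | g
  · exact dist_inj h.1 ha hb ((same0 (g a ha) h1').trans (same0 (g b hb) h2').symm)
  · exact dist_inj h.2.1 ha hb ((same0 (g a ha) h1'.symm).trans (same0 (g b hb) h2'.symm).symm)

lemma xor_aux (s : ℕ) (P Q : Prop) [Decidable P] [Decidable Q]
    (h : xor (decide ((s + 1) % 2 = 0)) (decide P) = xor (decide (s % 2 = 0)) (decide Q)) :
    ¬ (P ↔ Q) := by
  rcases Nat.mod_two_eq_zero_or_one s with h2 | h2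
  · have h3 : (s + 1) % 2 = 1 := by omega
    by_cases hP : P <;> by_cases hQ : Q <;> simp_all
  · have h3 : (s + 1) % 2 = 0 := by omega
    by_cases hP : P <;> by_cases hQ : Q <;> simp_all

lemma step (m u v s a b : ℕ) (hm : 1 ≤ m) (h : Nb m u v ∨ (s = 0 ∧ u ≤ 2 * m ∧ v ≤ 2 * m))
    (hs : s + 1 ≤ m)
    (ha : a ≤ 2 * m) (hb : b ≤ 2 * m)
    (h1 : colr m u (s + 1) a = colr m v s a) (h2 : colr m u (s + 1) b = colr m v s b) :
    a = b := by
  have h1' := xor_aux _ _ _ h1
  have h2' := xor_aux _ _ _ h2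
  rcases h with h | ⟨rfl, hu, hv⟩
  · rcases nb_sc h with g | g
    · exact dist_inj h.1 ha hb ((step1 hs (g a ha) h1').trans (step1 hs (g b hb) h2').symm)
    · have e1 := step2 hs (g a ha) h1'
      have e2 := step2 hs (g b hb) h2'
      exact dist_inj h.2.1 ha hb (by omega)
  · exact dist_inj hu ha hb ((step0 hm (dist_le ha) (dist_le ha) h1').trans
      (step0 hm (dist_le hb) (dist_le hb) h2').symm)

def phi (m u : ℕ) : ℕ := if u ≤ 2 * m then u else 2 * m - u % 2

def sig (m i : ℕ) : ℕ := if i ≤ m then m - i else (i - m) % 2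

def col (r k m : ℕ) (a : Fin (2 * m + 1)) : Option (Fin (2 * k + 1) × Fin r) → Bool
  | none => colr m 0 (sig m r) a.val
  | some (u, i) => colr m (phi m u.val) (sig m i.val) a.val

lemma cyc_adj {k : ℕ} (hk : 1 ≤ k) (u v : Fin (2 * k + 1)) :
    (SimpleGraph.cycleGraph (2 * k + 1)).Adj u v ↔ Nb k u.val v.val := by
  have hu := u.isLt
  have hv := v.isLt
  have aux : ∀ x : ℕ, x < 2 * (2 * k + 1) →
      (x % (2 * k + 1) = 1 ↔ (x = 1 ∨ x = 2 * k + 2)) := by
    intro x hx
    by_cases h : x < 2 * k + 1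
    · rw [Nat.mod_eq_of_lt h]; omega
    · rw [Nat.mod_eq_sub_mod (by omega), Nat.mod_eq_of_lt (by omega)]; omega
  rw [SimpleGraph.cycleGraph_adj', Fin.sub_def, Fin.sub_def]
  simp only
  rw [aux _ (by omega), aux _ (by omega)]
  unfold Nb
  omega

lemma phi_nb {k m u v : ℕ} (_hm : 1 ≤ m) (hmk : m ≤ k) (h : Nb k u v) :
    Nb m (phi m u) (phi m v) := by
  unfold Nb phi at *
  split_ifs <;> omega

lemma phi_le (m u : ℕ) : phi m u ≤ 2 * m := by
  unfold phi
  split_ifs <;> omega

lemma nb_symm {m u v : ℕ} (h : Nb m u v) : Nb m v u := by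
  unfold Nb at *
  omega

lemma level (m u v i a b : ℕ) (hm : 1 ≤ m)
    (h : Nb m u v ∨ (m ≤ i + 1 ∧ u ≤ 2 * m ∧ v ≤ 2 * m)) (ha : a ≤ 2 * m) (hb : b ≤ 2 * m)
    (h1 : colr m u (sig m i) a = colr m v (sig m (i + 1)) a)
    (h2 : colr m u (sig m i) b = colr m v (sig m (i + 1)) b) : a = b := by
  have hc : (sig m i = sig m (i + 1) + 1 ∧ sig m (i + 1) + 1 ≤ m ∧
      (m ≤ i + 1 → sig m (i + 1) = 0)) ∨ (sig m (i + 1) = 0 + 1 ∧ sig m i = 0) := by
    unfold sig
    split_ifs <;> omega
  have hu : u ≤ 2 * m ∧ v ≤ 2 * m := by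
    unfold Nb at h
    omega
  rcases hc with ⟨e1, e2, e3⟩ | ⟨e1, e2⟩
  · rw [e1] at h1 h2
    refine step m u v _ a b hm ?_ e2 ha hb h1 h2
    rcases h with h | h
    · exact Or.inl h
    · exact Or.inr ⟨e3 h.1, h.2⟩
  · rw [e1, e2] at h1 h2
    exact step m v u 0 a b hm (Or.inr ⟨rfl, hu.2, hu.1⟩) hm ha hb h1.symm h2.symm

lemma hcol (r k m : ℕ) (hm : 1 ≤ m) (hmk : m ≤ k) (hmr : m ≤ r)
    (x y : Option (Fin (2 * k + 1) × Fin r))
    (h : (myc (SimpleGraph.cycleGraph (2 * k + 1)) r).Adj x y) (a b : Fin (2 * m + 1))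
    (h1 : col r k m a x = col r k m a y) (h2 : col r k m b x = col r k m b y) : a = b := by
  have ha : a.val ≤ 2 * m := by have := a.isLt; omega
  have hb : b.val ≤ 2 * m := by have := b.isLt; omega
  apply Fin.ext
  rcases x with _ | ⟨u, i⟩ <;> rcases y with _ | ⟨v, j⟩
  · exact absurd h id
  · have e : j.val + 1 = r := h
    have e' : sig m r = sig m (j.val + 1) := by rw [e]
    simp only [col] at h1 h2
    rw [e'] at h1 h2
    exact level m _ 0 j.val _ _ hm (Or.inr ⟨by omega, phi_le _ _, by omega⟩) ha hb h1.symm h2.symm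
  · have e : i.val + 1 = r := h
    have e' : sig m r = sig m (i.val + 1) := by rw [e]
    simp only [col] at h1 h2
    rw [e'] at h1 h2
    exact level m _ 0 i.val _ _ hm (Or.inr ⟨by omega, phi_le _ _, by omega⟩) ha hb h1 h2
  · obtain ⟨hadj, hl⟩ := h
    have hn := phi_nb hm hmk ((cyc_adj (by omega) u v).mp hadj)
    simp only [col] at h1 h2
    rcases hl with ⟨e1, e2⟩ | e | e
    · rw [e1, e2] at h1 h2
      have : sig m 0 = m := by simp [sig]
      rw [this] at h1 h2
      exact same m _ _ _ _ hn ha hb h1 h2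
    · rw [← e] at h1 h2
      exact level m _ _ _ _ _ hm (Or.inl hn) ha hb h1 h2
    · rw [← e] at h1 h2
      exact level m _ _ _ _ _ hm (Or.inl (nb_symm hn)) ha hb h1.symm h2.symm

lemma val_succ {m : ℕ} (hm : 1 ≤ m) (i : ZMod (2 * m + 1)) :
    i.val ≤ 2 * m ∧ (i + 1).val = if i.val = 2 * m then 0 else i.val + 1 := by
  have h := ZMod.val_lt i
  have : Fact (1 < 2 * m + 1) := ⟨by omega⟩
  refine ⟨by omega, ?_⟩
  rw [ZMod.val_add, ZMod.val_one]
  split_ifs with h1
  · rw [h1, Nat.mod_self]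
  · exact Nat.mod_eq_of_lt (by omega)

lemma cyc1 (r k : ℕ) (hr : 1 ≤ r) (hk : 1 ≤ k) :
    ∃ c, IsCyc (myc (SimpleGraph.cycleGraph (2 * k + 1)) r) (2 * k + 1) c := by
  refine ⟨fun i => some (⟨i.val, ZMod.val_lt i⟩, ⟨0, hr⟩), by omega, ?_, ?_⟩
  · intro i j h
    apply ZMod.val_injective
    simpa using h
  · intro i
    refine ⟨(cyc_adj hk _ _).mpr ?_, Or.inl ⟨rfl, rfl⟩⟩
    have h1 := val_succ hk i
    have h2 := val_succ hk (i + 1)
    unfold Nb
    simp only
    split_ifs at h1 <;> omega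

def cf (r k : ℕ) (hr : 1 ≤ r) (t : ℕ) : Option (Fin (2 * k + 1) × Fin r) :=
  if t = 0 then none else
    some (⟨min t (2 * k), by omega⟩, ⟨min ((r - t) + (t - r - 1)) (r - 1), by omega⟩)

lemma cf_pos (r k : ℕ) (hr : 1 ≤ r) (t : ℕ) (h : t ≠ 0) : cf r k hr t =
    some (⟨min t (2 * k), by omega⟩, ⟨min ((r - t) + (t - r - 1)) (r - 1), by omega⟩) :=
  if_neg h

lemma cf_zero (r k : ℕ) (hr : 1 ≤ r) (t : ℕ) (h : t = 0) : cf r k hr t = none := if_pos h

lemma cyc2 (r k : ℕ) (hr : 1 ≤ r) (hk : r ≤ k) :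
    ∃ c, IsCyc (myc (SimpleGraph.cycleGraph (2 * k + 1)) r) (2 * r + 1) c := by
  refine ⟨fun i => cf r k hr i.val, by omega, ?_, ?_⟩
  · intro i j h
    apply ZMod.val_injective
    have hi := ZMod.val_lt i
    have hj := ZMod.val_lt j
    simp only at h
    by_cases h1 : i.val = 0 <;> by_cases h2 : j.val = 0
    · omega
    · rw [cf_zero _ _ _ _ h1, cf_pos _ _ _ _ h2] at h; exact absurd h (by simp)
    · rw [cf_pos _ _ _ _ h1, cf_zero _ _ _ _ h2] at h; exact absurd h (by simp)
    · rw [cf_pos _ _ _ _ h1, cf_pos _ _ _ _ h2] at h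
      simp only [Option.some.injEq, Prod.mk.injEq, Fin.mk.injEq] at h
      omega
  · intro i
    have h1 := val_succ hr i
    simp only
    by_cases e1 : i.val = 0 <;> by_cases e2 : (i + 1).val = 0
    · split_ifs at h1 <;> omega
    · rw [cf_zero _ _ _ _ e1, cf_pos _ _ _ _ e2]
      show min ((r - (i + 1).val) + ((i + 1).val - r - 1)) (r - 1) + 1 = r
      split_ifs at h1 <;> omega
    · rw [cf_pos _ _ _ _ e1, cf_zero _ _ _ _ e2]
      show min ((r - i.val) + (i.val - r - 1)) (r - 1) + 1 = r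
      split_ifs at h1 <;> omega
    · rw [cf_pos _ _ _ _ e1, cf_pos _ _ _ _ e2]
      refine ⟨(cyc_adj (by omega) _ _).mpr ?_, ?_⟩
      · unfold Nb
        simp only
        split_ifs at h1 <;> omega
      · simp only
        split_ifs at h1 <;> omega

theorem result (r k : ℕ) (hr : 1 ≤ r) (hk : 1 ≤ k) :
    ∃ D, IsOrientation (myc (SimpleGraph.cycleGraph (2 * k + 1)) r) D ∧
      ∀ L c, IsShortestOdd (myc (SimpleGraph.cycleGraph (2 * k + 1)) r) L c →
        Alternating D c := by
  obtain ⟨e, he⟩ := Countable.exists_injective_nat (Option (Fin (2 * k + 1) × Fin r))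
  rcases Nat.le_total k r with h | h
  · obtain ⟨c, hc⟩ := cyc1 r k hr hk
    exact general _ (2 * k + 1) (by omega) (col r k k) e he
      (hcol r k k hk le_rfl h) c hc ⟨k, rfl⟩
  · obtain ⟨c, hc⟩ := cyc2 r k hr h
    exact general _ (2 * r + 1) (by omega) (col r k r) e he
      (hcol r k r hr h le_rfl) c hc ⟨r, rfl⟩

end Pool.Agent.Results.MP_118fda_co.Proof
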